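import Pool.Agent.NNDT.Fin2

/-!
# Antimonotone functions

A nondeterministic circuit with few NOT gates which accepts the complement of the conjunction of many monotone
functions on disjoint sets of variables gives monotone circuits for one of the functions; the number of the
witness bits on which the NOT gates do not depend plays no role.
-/

set_option autoImplicit false

namespace Pool.Agent.NLM

open Finset Pool.Agent.NegLim Pool.Agent.NNDT
open Pool.Agent.NEG72 hiding Gate

variable {E ι V : Type} {s t : ℕ}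

/-- Conjunction of many functions. -/
lemma monSize_all {P : Type} (G : P → (V → Bool) → Bool) {K : ℕ}
    (hG : ∀ p, NegLim.MonSize (G p) K) (ps : List P) :
    NegLim.MonSize (fun x => ps.all fun p => G p x) (ps.length * (K + 1)) := by
  induction ps with
  | nil => exact ⟨[], NegLim.Mon.nil, by simp, Avail.const _ true⟩
  | cons p ps ih =>
    obtain ⟨L, h1, h2, h3⟩ := ih
    obtain ⟨L', h1', h2', h3'⟩ := hG p
    refine ⟨_, NegLim.Mon.and (h1'.append h1) (h3'.mono fun _ h => List.mem_append_left _ h)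
      (h3.mono fun _ h => List.mem_append_right _ h), ?_, ?_⟩
    · simp only [List.length_cons, List.length_append]
      rw [Nat.add_mul]
      omega
    · exact Avail.head _ _

lemma gvals_not {z : ℕ → Bool} {C : List (Gate E s t)} {x : E → Bool} {u : Fin s → Bool}
    {w : Fin t → Bool} {n : ℕ} (h : ∃ a, C[n]? = some (NegLim.Gate.not a)) :
    (gvals z C x u w)[n]? = some (z n) := by
  induction C using List.reverseRecOn with
  | nil => simp at h
  | append_singleton C g ih =>
    have hlen : (gvals z C x u w).length = C.length := gvals_length ..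
    rw [gvals_concat]
    rcases lt_trichotomy n C.length with h1 | h1 | h1
    · rw [List.getElem?_append_left (by omega)]
      apply ih
      obtain ⟨a, ha⟩ := h
      rw [List.getElem?_append_left h1] at ha
      exact ⟨a, ha⟩
    · subst h1
      obtain ⟨a, ha⟩ := h
      rw [List.getElem?_append_right le_rfl] at ha
      simp only [Nat.sub_self, List.getElem?_cons_zero, Option.some.injEq] at ha
      subst ha
      rw [List.getElem?_append_right (by omega), hlen]
      simp [NegLim.Gate.isNot]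
    · obtain ⟨a, ha⟩ := h
      rw [List.getElem?_eq_none (by simp; omega)] at ha
      cases ha

section

variable (B : ι → Set E) (hB : ∀ i j, i ≠ j → Disjoint (B i) (B j)) (c : E → Bool)
  (φ : ι → (E → Bool) → Bool) (hloc : ∀ i x x', (∀ e ∈ B i, x e = x' e) → φ i x = φ i x')

include hB hloc

/-- **Transfer theorem for the complement.** The functions `φ i` depend only on the variables in the disjoint
sets `B i` and are `true` on the input without zeros; the nondeterministic circuit `C` accepts the complement of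
their conjunction on the inputs which are equal to `c` outside the sets. Then all but at most `2 ^ s * (2 ^ r - 1)`
of them have monotone circuits of size `2 ^ s * (size + 1)`. -/
theorem transfer_anti (htop : ∀ i, φ i (fun _ => true) = true) (C : NCirc E s t)
    (hN : C.NotsFree)
    (hC : ∀ x, (∀ e, (∀ i, e ∉ B i) → x e = c e) → (C.Acc x ↔ ¬ ∀ i, φ i x = true)) :
    ∃ A : Finset ι, A.card ≤ 2 ^ s * (2 ^ C.nots - 1) ∧
      ∀ i, i ∉ A → NegLim.MonSize (φ i) (2 ^ s * (C.gates.length + 1)) := by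
  classical
  set Adm : (E → Bool) → Finset ι → Prop := fun R A =>
    (∀ e, (∀ i, e ∉ B i) → R e = c e) ∧ (∀ i, i ∉ A → ∀ e ∈ B i, R e = true) ∧
      ∀ i, φ i R = true with hAdm
  have hmem : ∀ {i j e}, e ∈ B i → e ∈ B j → i = j := by
    intro i j e h1 h2
    by_contra h
    exact Set.disjoint_left.1 (hB i j h) h1 h2
  obtain ⟨R, A, ⟨hR1, hR2, hR3⟩, hA, hmax⟩ := greedy (2 ^ s * (2 ^ C.nots - 1)) (Phi C)
    (Phi_le C) Adm (fun e => if ∃ i, e ∈ B i then true else c e) (by
      refine ⟨fun e he => if_neg ?_, fun i _ e he => if_pos ⟨i, he⟩,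
        fun i => (hloc i _ _ fun e he => ?_).trans (htop i)⟩
      · rintro ⟨i, hi⟩
        exact he i hi
      · exact if_pos ⟨i, he⟩)
  refine ⟨A, hA, fun i hi => ?_⟩
  have hle : ∀ y e, upd R (B i) y e = true → R e = true := by
    intro y e h
    by_cases he : e ∈ B i
    · exact hR2 i hi e he
    · rwa [upd_notMem he] at h
  have hout : ∀ y e, (∀ j, e ∉ B j) → upd R (B i) y e = c e := by
    intro y e he
    rw [upd_notMem (he i)]
    exact hR1 e he
  have hφi : ∀ y, φ i (upd R (B i) y) = φ i y := fun y => hloc i _ _ fun e he => upd_mem he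
  have hφj : ∀ y j, j ≠ i → φ j (upd R (B i) y) = true := by
    intro y j hj
    refine (hloc j _ _ fun e he => ?_).trans (hR3 j)
    exact upd_notMem fun h => hj (hmem he h)
  have hgoodR : ∀ u w, Good (guess C R u) C.gates R u w :=
    good_guess C hN fun _ => rfl
  have hgood : ∀ y, φ i y = true → ∀ u w, Good (guess C R u) C.gates (upd R (B i) y) u w := by
    intro y hy
    apply good_guess C hN
    intro u
    refine num_eq_of_Phi C (hle y) ?_ u
    refine hmax i hi (upd R (B i) y) ⟨hout y, ?_, ?_⟩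
    · intro j hj e he
      rw [Finset.mem_insert, not_or] at hj
      rw [upd_notMem fun h => hj.1 (hmem he h)]
      exact hR2 j hj.2 e he
    · intro j
      by_cases h : j = i
      · subst h
        rw [hφi, hy]
      · exact hφj y j h
  -- the program
  set us : List (Fin s → Bool) := (univ : Finset (Fin s → Bool)).toList with hus
  have huslen : us.length = 2 ^ s := by
    rw [hus, Finset.length_toList, Finset.card_univ, Fintype.card_fun, Fintype.card_bool,
      Fintype.card_fin]
  have hF : φ i = fun y => us.all fun u =>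
      chkA (guess C R u) C.gates (upd R (B i) y) u fun _ => false := by
    funext y
    cases hy : φ i y with
    | true =>
      symm
      rw [List.all_eq_true]
      intro u _
      exact chkA_of_good (hgood y hy u _)
    | false =>
      symm
      rw [← Bool.not_eq_true, List.all_eq_true]
      intro hall
      have h1 : C.Acc (upd R (B i) y) := by
        rw [hC _ (hout y)]
        intro h
        have h2 := h i
        rw [hφi, hy] at h2
        cases h2
      obtain ⟨u, w, h2⟩ := h1
      have h3 := keyA (hle y) (hgoodR u fun _ => false)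
        (hall u (Finset.mem_toList.2 (mem_univ u)))
      have h4 : Good (guess C R u) C.gates (upd R (B i) y) u w := by
        intro n hn
        rw [hN n hn _ u w fun _ => false, ← h3]
        exact gvals_not hn
      have h5 := gvals_mono (guess C R u) C.gates u w (hle y)
      rw [h4.gvals, (hgoodR u w).gvals] at h5
      have h6 : C.Acc R := ⟨u, w, Wire.val_mono (hle y) h5 C.out h2⟩
      rw [hC _ hR1] at h6
      exact h6 hR3
  rw [hF, ← huslen]
  refine monSize_all (fun (u : Fin s → Bool) (y : E → Bool) =>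
    chkA (guess C R u) C.gates (upd R (B i) y) u fun _ => false) ?_ us
  intro u
  obtain ⟨L, h1, h2, _, h4⟩ := prog (isProj_upd R (B i)) (guess C R u) C.gates u (fun _ => false)
    false
  exact ⟨L, h1, h2, by simpa using h4⟩

end

open Classical in
/-- **The combinatorial bound** for the complement of `nis`. -/
theorem bound_anti {v k Q b : ℕ} {D : Finset ℕ} (hk2 : 2 ≤ k) (hb0 : 0 < b)
    (hD : ThreeAPFree (D : Set ℕ))
    (hw : ∀ w ∈ Finset.range Q ×ˢ D, ∀ i < k, w.1 + i * w.2 < 2 * Q)
    (hQb : k * (2 * Q) * b ≤ v) {s t : ℕ} (C : NCirc (Edge v) s t) (hN : C.NotsFree)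
    (hacc : ∀ x, C.Acc x ↔ ¬ nis v k x = true)
    (hm : 2 ^ (s + C.nots) ≤ Q * D.card) (l p : ℕ)
    (hl : l * (l - 1) ≤ k - 1) (hl2 : 2 ≤ l) (hp : 2 ≤ p) :
    2 ^ p ≤ 4 * ((p * l) ^ l) ^ 2 * (2 * (2 ^ s * (C.gates.length + 1))) ∨
      b ^ k ≤ (2 * (2 ^ s * (C.gates.length + 1))) * (((p * l) ^ l) ^ 2 * b ^ (k - (l + 1))) := by
  set W := Finset.range Q ×ˢ D with hW
  have hWc : W.card = Q * D.card := by rw [hW, card_product, card_range]
  let φ : Fin W.card ≃ W := W.equivFin.symm
  obtain ⟨A, hA, hA2⟩ := transfer_anti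
    (fun i : Fin W.card => {e : Edge v | InWin k Q b (φ i).1 e})
    (fun i j hij => Set.disjoint_left.2 fun e h1 h2 =>
      hij (φ.injective (Subtype.ext (InWin.unique h1 h2))))
    (fun _ => true) (fun i => wf v k Q b (φ i).1)
    (by
      intro i x x' hx
      unfold wf
      congr 1
      funext e
      by_cases he : InWin k Q b (φ i).1 e
      · rw [hx e he]
      · simp [he])
    (by
      intro i
      unfold wf
      simp only [Bool.or_true]
      exact nis_top hk2) C hN
    (by
      intro x hx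
      rw [hacc, not_iff_not]
      constructor
      · intro h i
        unfold wf
        rw [nis_iff] at h ⊢
        intro S hS
        obtain ⟨e, h1, h2, h3⟩ := h S hS
        exact ⟨e, h1, h2, by simp [h3]⟩
      · intro h
        by_contra hne
        rw [nis_iff] at hne
        push Not at hne
        obtain ⟨S, hS, hSx⟩ := hne
        obtain ⟨w, hwW, hwS⟩ := one_window hD hk2 hS (by
          intro e h1 h2
          by_contra hno
          push Not at hno
          exact hSx e h1 h2 (hx e fun i => hno (φ i).1 (φ i).2))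
        obtain ⟨i, hi⟩ : ∃ i, (φ i).1 = w := ⟨φ.symm ⟨w, hwW⟩, by simp⟩
        have h0 := h i
        unfold wf at h0
        obtain ⟨e, h1, h2, h3⟩ := (nis_iff.1 h0) S hS
        have h4 := hwS e h1 h2
        rw [← hi] at h4
        rw [Bool.or_eq_true, Bool.not_eq_true', decide_eq_false_iff_not] at h3
        rcases h3 with h3 | h3
        · exact h3 h4
        · exact hSx e h1 h2 h3)
  obtain ⟨i, hi⟩ : ∃ i, i ∉ A := by
    by_contra hall
    push Not at hall
    have h3 : (univ : Finset (Fin W.card)) ⊆ A := fun i _ => hall i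
    have h4 := Finset.card_le_card h3
    rw [Finset.card_univ, Fintype.card_fin] at h4
    have h5 : 0 < 2 ^ s := by positivity
    have h6 : 0 < 2 ^ C.nots := by positivity
    have h7 : 2 ^ s * (2 ^ C.nots - 1) < 2 ^ s * 2 ^ C.nots :=
      Nat.mul_lt_mul_of_pos_left (by omega) h5
    rw [← pow_add] at h7
    omega
  refine win_final (hw _ (φ i).2) hQb (hA2 i hi) (fun y hy => hy) ?_ l p hl hl2 hp
  have hX : 0 < Fintype.card (Fin k × Fin b → Fin (k - 1)) := by
    rw [Fintype.card_pos_iff]
    exact ⟨fun _ => ⟨0, by omega⟩⟩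
  have hall : ((univ : Finset (Fin k × Fin b → Fin (k - 1))).filter
      fun χ => wf v k Q b (φ i).1 (fun e => !(tneg (hw _ (φ i).2) hQb χ e)) = true) = univ := by
    rw [Finset.filter_eq_self]
    intro χ _
    rw [wf_not, winClq_neg (hw _ (φ i).2) hQb hk2 hb0 (by omega) χ]
    rfl
  rw [hall, Finset.card_univ]
  omega

/-- **The exponential bound** for the complement of `nis`; the number `t` of the witness bits is arbitrary. -/
theorem exponential_anti (ε : ℝ) (hε : 0 < ε) (hε1 : ε ≤ 1) : ∃ v₀ : ℕ, ∀ v ≥ v₀, ∀ k N : ℕ,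
    k = ⌊(v : ℝ) ^ (ε / 32)⌋₊ → N = v * (v - 1) / 2 →
      ∀ (s t : ℕ) (C : NCirc (Edge v) s t), C.NotsFree →
        (∀ x, C.Acc x ↔ ¬ nis v k x = true) →
        ((2 ^ (s + C.nots) : ℕ) : ℝ) ≤ (N : ℝ) ^ (1 - ε) →
        (2 : ℝ) ^ ((N : ℝ) ^ (ε / 200)) ≤ C.gates.length := by
  obtain ⟨v₁, hv₁⟩ := params ε hε hε1
  have h1 : Filter.Tendsto (fun v : ℕ => (v : ℝ) ^ (ε / 100)) Filter.atTop Filter.atTop :=
    (tendsto_rpow_atTop (by positivity)).comp tendsto_natCast_atTop_atTop
  have h2 : Filter.Tendsto (fun v : ℕ => (v : ℝ) ^ (ε / 64 - ε / 100)) Filter.atTop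
      Filter.atTop :=
    (tendsto_rpow_atTop (by linarith)).comp tendsto_natCast_atTop_atTop
  have h3 : ∀ᶠ v : ℕ in Filter.atTop, ‖Real.log (v : ℝ)‖ ≤ 1 / 4 * ‖(v : ℝ) ^ (ε / 100)‖ :=
    tendsto_natCast_atTop_atTop.eventually
      ((isLittleO_log_rpow_atTop (by positivity : 0 < ε / 100)).bound (by norm_num))
  obtain ⟨v₂, hv₂⟩ := Filter.eventually_atTop.1 ((h1.eventually_ge_atTop 4).and
    ((h2.eventually_ge_atTop 4).and (h3.and (Filter.eventually_ge_atTop 2))))
  refine ⟨max v₁ v₂, fun v hv k N hk hN s t C hfree hacc hsr => ?_⟩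
  obtain ⟨Q, b, D, hk2, hb0, hD, hw, hQb, hcard, hT⟩ := hv₁ v ((le_max_left _ _).trans hv) k hk
  obtain ⟨g1, g2, g3, g5⟩ := hv₂ v ((le_max_right _ _).trans hv)
  have hv1 : (1 : ℝ) ≤ v := by exact_mod_cast (by omega : 1 ≤ v)
  have hv0 : (0 : ℝ) < v := by linarith
  set y : ℝ := (v : ℝ) ^ (ε / 100) with hy
  have hy0 : 0 < y := by positivity
  have hNv : (N : ℝ) ≤ (v : ℝ) ^ (2 : ℝ) := by
    have h3 : N ≤ v * v := by
      rw [hN]
      exact (Nat.div_le_self _ _).trans (Nat.mul_le_mul_left _ (Nat.sub_le _ _))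
    calc (N : ℝ) ≤ ((v * v : ℕ) : ℝ) := by exact_mod_cast h3
      _ = (v : ℝ) ^ (2 : ℝ) := by
        rw [Real.rpow_two, sq]
        push_cast
        rfl
  have hN1 : 1 ≤ N := by
    rw [hN, Nat.le_div_iff_mul_le (by norm_num)]
    calc 1 * 2 = 2 * 1 := by ring
      _ ≤ v * (v - 1) := Nat.mul_le_mul g5 (by omega)
  have hN1r : (1 : ℝ) ≤ N := by exact_mod_cast hN1
  have hNy : (N : ℝ) ^ (ε / 200) ≤ y := by
    calc (N : ℝ) ^ (ε / 200) ≤ ((v : ℝ) ^ (2 : ℝ)) ^ (ε / 200) :=
          Real.rpow_le_rpow (by linarith) hNv (by positivity)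
      _ = y := by
          rw [← Real.rpow_mul hv0.le, hy]
          congr 1
          ring
  have h4y : 4 * y ≤ (v : ℝ) ^ (ε / 64) := by
    calc 4 * y ≤ (v : ℝ) ^ (ε / 64 - ε / 100) * y := by gcongr
      _ = (v : ℝ) ^ (ε / 64) := by
        rw [hy, ← Real.rpow_add hv0]
        congr 1
        ring
  have hNe : (N : ℝ) ^ (1 - ε) ≤ (v : ℝ) ^ (2 - 2 * ε) := by
    calc (N : ℝ) ^ (1 - ε) ≤ ((v : ℝ) ^ (2 : ℝ)) ^ (1 - ε) :=
          Real.rpow_le_rpow (by linarith) hNv (by linarith)
      _ = _ := by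
          rw [← Real.rpow_mul hv0.le]
          congr 1
          ring
  have hs : (2 : ℝ) ^ s ≤ (v : ℝ) ^ (2 : ℝ) := by
    have e1 : (2 : ℝ) ^ s ≤ ((2 ^ (s + C.nots) : ℕ) : ℝ) := by
      have : 2 ^ s ≤ 2 ^ (s + C.nots) := Nat.pow_le_pow_right (by norm_num) (Nat.le_add_right _ _)
      exact_mod_cast this
    have e2 : (v : ℝ) ^ (2 - 2 * ε) ≤ (v : ℝ) ^ (2 : ℝ) :=
      Real.rpow_le_rpow_of_exponent_le hv1 (by linarith)
    exact (e1.trans hsr).trans (hNe.trans e2)
  -- `v ^ 2 ≤ 2 ^ y`
  have hvy : (v : ℝ) ^ (2 : ℝ) ≤ (2 : ℝ) ^ y := by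
    have e3 : 0 ≤ Real.log v := Real.log_nonneg hv1
    rw [Real.norm_of_nonneg e3, Real.norm_of_nonneg hy0.le] at g3
    rw [Real.rpow_def_of_pos hv0, Real.rpow_def_of_pos (by norm_num : (0 : ℝ) < 2)]
    apply Real.exp_le_exp.2
    have e2 : (1 : ℝ) / 2 ≤ Real.log 2 := by
      have := Real.log_two_gt_d9
      linarith
    nlinarith
  have hm : 2 ^ (s + C.nots) ≤ Q * D.card := by
    have e1 : ((2 ^ (s + C.nots) : ℕ) : ℝ) ≤ ((Q * D.card : ℕ) : ℝ) := by
      calc ((2 ^ (s + C.nots) : ℕ) : ℝ) ≤ (v : ℝ) ^ (2 - 2 * ε) := hsr.trans hNe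
        _ ≤ (v : ℝ) ^ (2 - ε) := Real.rpow_le_rpow_of_exponent_le hv1 (by linarith)
        _ ≤ _ := hcard
    exact_mod_cast e1
  have hmain := hT (2 * (2 ^ s * (C.gates.length + 1))) fun l p hl hl2 hp =>
    bound_anti hk2 hb0 hD hw hQb C hfree hacc hm l p hl hl2 hp
  -- the arithmetic
  set z : ℝ := (2 : ℝ) ^ y with hz
  have e1 : z ^ 4 ≤ 2 * ((2 : ℝ) ^ s * (C.gates.length + 1)) := by
    have e3 : (2 : ℝ) ^ (4 * y) = z ^ 4 := by
      rw [hz, ← Real.rpow_natCast, ← Real.rpow_mul (by norm_num)]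
      congr 1
      push_cast
      ring
    rw [← e3]
    refine (Real.rpow_le_rpow_of_exponent_le (by norm_num) h4y).trans (hmain.trans (le_of_eq ?_))
    push_cast
    ring
  have e2 : (2 : ℝ) ^ ((N : ℝ) ^ (ε / 200)) ≤ z :=
    Real.rpow_le_rpow_of_exponent_le (by norm_num) hNy
  have e4 : (16 : ℝ) ≤ z := by
    calc (16 : ℝ) = (2 : ℝ) ^ (4 : ℝ) := by norm_num
      _ ≤ (2 : ℝ) ^ y := Real.rpow_le_rpow_of_exponent_le (by norm_num) g1
  refine e2.trans ?_
  have e5 : z ^ 4 ≤ 2 * (z * (C.gates.length + 1)) := by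
    refine e1.trans ?_
    have e6 : (2 : ℝ) ^ s ≤ z := hs.trans hvy
    have e7 : (0 : ℝ) ≤ (C.gates.length : ℝ) + 1 := by positivity
    nlinarith [mul_le_mul_of_nonneg_right e6 e7]
  have e8 : z ^ 3 ≤ 2 * (C.gates.length + 1) := by
    have hz0 : 0 < z := by linarith
    have e9 : z * z ^ 3 ≤ z * (2 * (C.gates.length + 1)) := by
      calc z * z ^ 3 = z ^ 4 := by ring
        _ ≤ 2 * (z * (C.gates.length + 1)) := e5
        _ = z * (2 * (C.gates.length + 1)) := by ring
    exact le_of_mul_le_mul_left e9 hz0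
  have e10 : 256 * z ≤ z ^ 3 := by
    have e11 : 256 ≤ z ^ 2 := by
      calc (256 : ℝ) = 16 ^ 2 := by norm_num
        _ ≤ z ^ 2 := pow_le_pow_left₀ (by norm_num) e4 2
    calc 256 * z ≤ z ^ 2 * z := mul_le_mul_of_nonneg_right e11 (by linarith)
      _ = z ^ 3 := by ring
  linarith

end Pool.Agent.NLM
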