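import Pool.Agent.NegLim.Defs

/-!
# Three modes of circuits with few negations

The circuits are those of `Pool.Agent.NegLim.Defs` (gates AND, OR, NOT; input bits and witness bits). A circuit
accepts an input in the NP mode if its output is `true` for some witness, in the coNP mode if this is so for all
witnesses, and in the PP mode if this is so for more than half of the witnesses.
-/

set_option autoImplicit false

namespace Pool.Agent.NLM

open Pool.Agent.NegLim

variable {E : Type} {s t : ℕ}

/-- The output of the circuit on the input `x` with the witness `(u, w)`. -/
def outp (C : NCirc E s t) (x : E → Bool) (u : Fin s → Bool) (w : Fin t → Bool) : Bool :=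
  C.out.val x u w (vals C.gates x u w)

/-- The coNP mode: the output is `true` for all witnesses. -/
def All (C : NCirc E s t) (x : E → Bool) : Prop := ∀ u w, outp C x u w = true

/-- The PP mode: the output is `true` for more than half of the witnesses. -/
def Maj (C : NCirc E s t) (x : E → Bool) : Prop :=
  2 ^ (s + t) < 2 * (Finset.univ.filter fun p : (Fin s → Bool) × (Fin t → Bool) =>
    outp C x p.1 p.2 = true).card

/-- The circuit accepts exactly the inputs with `f`, in the NP mode or in the coNP mode. -/
def Accepts (C : NCirc E s t) (f : (E → Bool) → Prop) : Prop :=
  (∀ x, C.Acc x ↔ f x) ∨ (∀ x, All C x ↔ f x)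

open Classical in
/-- The number of the cliques with `k` vertices in the graph with the edges `x`. -/
noncomputable def cliques (v k : ℕ) (x : Edge v → Bool) : ℕ :=
  ((Finset.univ : Finset (Finset (Fin v))).filter fun S => S.card = k ∧
    ∀ e : Edge v, e.1.1 ∈ S → e.1.2 ∈ S → x e = true).card

open Classical in
/-- The number of the independent sets with `k` vertices in the graph with the edges `x`. -/
noncomputable def indeps (v k : ℕ) (x : Edge v → Bool) : ℕ :=
  ((Finset.univ : Finset (Finset (Fin v))).filter fun S => S.card = k ∧
    ∀ e : Edge v, e.1.1 ∈ S → e.1.2 ∈ S → x e = false).card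

/-- A pair of graphs on `v` vertices: the first one has more cliques with `k` vertices than the second one has
independent sets with `k` vertices. -/
def More (v k : ℕ) (z : Edge v ⊕ Edge v → Bool) : Prop :=
  indeps v k (fun e => z (Sum.inr e)) < cliques v k (fun e => z (Sum.inl e))

end Pool.Agent.NLM
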