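import Pool.Agent.NLM.Trans
import Pool.Agent.NLM.Anti

/-!
# The lower bounds for the two modes, for the function and for its complement
-/

set_option autoImplicit false

namespace Pool.Agent.NLM

open Pool.Agent.NegLim Pool.Agent.NNDT
open Pool.Agent.NEG72 (clq_iff nis_iff clq_not)

variable {E E' : Type} {s t : ℕ}

/-- substitution of input bits and constants, without negation -/
def sb (ρ : E' → Wire E s t) (C : NCirc E' s t) : NCirc E s t :=
  tc false ρ (fun u _ => u) (fun _ w => w) C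

section

variable {ρ : E' → Wire E s t} {X : (E → Bool) → E' → Bool}
  (hρ : ∀ x u w e l, (ρ e).val x u w l = X x e) (C : NCirc E' s t)

include hρ

lemma sb_out (x : E → Bool) (u : Fin s → Bool) (w : Fin t → Bool) :
    outp (sb ρ C) x u w = outp C (X x) u w := by
  have h := tc_out false ρ (fun u _ => u) (fun _ w => w) (x := x) (u := u) (w := w) (X := X x)
    (fun e l => by rw [hρ, Bool.false_xor]) C
  rw [Bool.false_xor] at h
  exact h

lemma sb_acc (x : E → Bool) : (sb ρ C).Acc x ↔ C.Acc (X x) := by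
  have h : ∀ u w, outp (sb ρ C) x u w = outp C (X x) u w := sb_out hρ C x
  constructor
  · rintro ⟨u, w, h1⟩
    exact ⟨u, w, by
      have h2 : outp (sb ρ C) x u w = true := h1
      rw [h] at h2
      exact h2⟩
  · rintro ⟨u, w, h1⟩
    exact ⟨u, w, by
      have h2 : outp C (X x) u w = true := h1
      rw [← h] at h2
      exact h2⟩

lemma sb_all (x : E → Bool) : All (sb ρ C) x ↔ All C (X x) := by
  unfold All
  simp only [sb_out hρ C]

lemma sb_free (hC : C.NotsFree) : (sb ρ C).NotsFree :=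
  tc_free false ρ X (fun x u w e l => by rw [hρ, Bool.false_xor]) C hC

omit hρ in
lemma sb_nots : (sb ρ C).nots = C.nots := tc_nots ..

omit hρ in
lemma sb_length : (sb ρ C).gates.length = C.gates.length := tc_length ..

end

/-- the first graph consists of one clique with `k` vertices and isolated vertices -/
def r1 (v k s t : ℕ) : Edge v ⊕ Edge v → Wire (Edge v) s t
  | Sum.inl e => Wire.wit fun _ _ => decide (e.1.2.val < k)
  | Sum.inr e => Wire.inp e

/-- the second graph is complete -/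
def r2 (v s t : ℕ) : Edge v ⊕ Edge v → Wire (Edge v) s t
  | Sum.inl e => Wire.inp e
  | Sum.inr _ => Wire.wit fun _ _ => true

lemma r1_val {v k s t : ℕ} (x : Edge v → Bool) (u : Fin s → Bool) (w : Fin t → Bool)
    (e : Edge v ⊕ Edge v) (l : List Bool) : (r1 v k s t e).val x u w l =
      (Sum.elim (fun e => decide (e.1.2.val < k)) x : Edge v ⊕ Edge v → Bool) e := by
  cases e <;> rfl

lemma r2_val {v s t : ℕ} (x : Edge v → Bool) (u : Fin s → Bool) (w : Fin t → Bool)
    (e : Edge v ⊕ Edge v) (l : List Bool) :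
    (r2 v s t e).val x u w l = (Sum.elim x (fun _ => true) : Edge v ⊕ Edge v → Bool) e := by
  cases e <;> rfl

lemma indeps_eq_zero {v k : ℕ} {x : Edge v → Bool} : indeps v k x = 0 ↔ nis v k x = true := by
  unfold indeps
  rw [Finset.card_eq_zero, Finset.filter_eq_empty_iff, nis_iff]
  constructor
  · intro h S hS
    have h1 := h (Finset.mem_univ S)
    push Not at h1
    obtain ⟨e, h2, h3, h4⟩ := h1 hS
    exact ⟨e, h2, h3, by simpa using h4⟩
  · rintro h S _ ⟨hS, h1⟩
    obtain ⟨e, h2, h3, h4⟩ := h S hS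
    rw [h1 e h2 h3] at h4
    cases h4

lemma cliques_pos {v k : ℕ} {x : Edge v → Bool} : 0 < cliques v k x ↔ clq v k x = true := by
  unfold cliques
  rw [Finset.card_pos, clq_iff]
  constructor
  · rintro ⟨S, hS⟩
    rw [Finset.mem_filter] at hS
    exact ⟨S, hS.2.1, hS.2.2⟩
  · rintro ⟨S, hS, h⟩
    exact ⟨S, Finset.mem_filter.2 ⟨Finset.mem_univ S, hS, h⟩⟩

lemma cliques_one {v k : ℕ} (hk2 : 2 ≤ k) (hkv : k ≤ v) :
    cliques v k (fun e => decide (e.1.2.val < k)) = 1 := by
  classical
  unfold cliques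
  rw [Finset.card_eq_one]
  have hT : ((Finset.univ : Finset (Fin v)).filter fun i => i.val < k).card = k := by
    have h1 : ((Finset.univ : Finset (Fin v)).filter fun i => i.val < k) =
        (Finset.univ : Finset (Fin k)).map (Fin.castLEEmb hkv) := by
      ext i
      simp only [Finset.mem_filter, Finset.mem_univ, true_and, Finset.mem_map, Fin.castLEEmb_apply]
      constructor
      · intro h
        exact ⟨⟨i.val, h⟩, rfl⟩
      · rintro ⟨j, rfl⟩
        exact j.2
    rw [h1, Finset.card_map, Finset.card_univ, Fintype.card_fin]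
  refine ⟨(Finset.univ : Finset (Fin v)).filter fun i => i.val < k, ?_⟩
  ext S
  rw [Finset.mem_filter, Finset.mem_singleton]
  constructor
  · rintro ⟨_, hS, h⟩
    refine Finset.eq_of_subset_of_card_le ?_ (by rw [hT, hS])
    intro i hi
    rw [Finset.mem_filter]
    refine ⟨Finset.mem_univ i, ?_⟩
    obtain ⟨j, hj, hij⟩ : ∃ j ∈ S, j ≠ i := Finset.exists_mem_ne (by omega) i
    rcases lt_or_gt_of_ne hij with h1 | h1
    · exact of_decide_eq_true (h ⟨(j, i), h1⟩ hj hi)
    · have h2 := of_decide_eq_true (h ⟨(i, j), h1⟩ hi hj)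
      exact lt_trans (Fin.lt_def.1 h1) h2
  · rintro rfl
    refine ⟨Finset.mem_univ _, hT, fun e _ h2 => ?_⟩
    rw [Finset.mem_filter] at h2
    exact decide_eq_true h2.2

lemma good1 {v k : ℕ} (hk2 : 2 ≤ k) (hk : k ≤ v) (x : Edge v → Bool) :
    More v k (Sum.elim (fun e => decide (e.1.2.val < k)) x) ↔ nis v k x = true := by
  unfold More
  simp only [Sum.elim_inl, Sum.elim_inr]
  rw [cliques_one hk2 hk, Nat.lt_one_iff, indeps_eq_zero]

lemma good2 {v k : ℕ} (hk : 2 ≤ k) (y : Edge v → Bool) :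
    More v k (Sum.elim y (fun _ => true)) ↔ clq v k y = true := by
  unfold More
  simp only [Sum.elim_inl, Sum.elim_inr]
  rw [indeps_eq_zero.2 (nis_top hk), cliques_pos]

/-- **The lower bound.** -/
theorem lower (ε : ℝ) (hε : 0 < ε) (hε1 : ε ≤ 1) : ∃ v₀ : ℕ, ∀ v ≥ v₀, ∀ (k N s t : ℕ)
    (C : NCirc (Edge v ⊕ Edge v) s t), k = ⌊(v : ℝ) ^ (ε / 32)⌋₊ → N = v * (v - 1) / 2 →
      C.NotsFree →
      (Accepts C (More v k) ∧ ((2 ^ (s + C.nots) * (t + 1) : ℕ) : ℝ) ≤ (N : ℝ) ^ (1 - ε)) ∨
        (Accepts C (fun z => ¬ More v k z) ∧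
          ((2 ^ (s + C.nots) : ℕ) : ℝ) ≤ (N : ℝ) ^ (1 - ε)) →
      (2 : ℝ) ^ ((N : ℝ) ^ (ε / 200)) ≤ C.gates.length := by
  obtain ⟨v₁, hv₁⟩ := exponential ε hε hε1
  obtain ⟨v₂, hv₂⟩ := exponential_anti ε hε hε1
  have h1 : Filter.Tendsto (fun v : ℕ => (v : ℝ) ^ (ε / 32)) Filter.atTop Filter.atTop :=
    (tendsto_rpow_atTop (by positivity)).comp tendsto_natCast_atTop_atTop
  obtain ⟨v₃, hv₃⟩ := Filter.eventually_atTop.1
    ((h1.eventually_ge_atTop 2).and (Filter.eventually_ge_atTop 1))
  refine ⟨max v₁ (max v₂ v₃), fun v hv k N s t C hk hN hfree h => ?_⟩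
  have hva : v₁ ≤ v := (le_max_left _ _).trans hv
  have hvb : v₂ ≤ v := ((le_max_left _ _).trans (le_max_right _ _)).trans hv
  obtain ⟨g1, g2⟩ := hv₃ v (((le_max_right _ _).trans (le_max_right _ _)).trans hv)
  have hv1 : (1 : ℝ) ≤ v := by exact_mod_cast g2
  have hk2 : 2 ≤ k := by
    rw [hk]
    exact Nat.le_floor (by exact_mod_cast g1)
  have hkv : k ≤ v := by
    rw [hk]
    apply Nat.floor_le_of_le
    calc (v : ℝ) ^ (ε / 32) ≤ (v : ℝ) ^ (1 : ℝ) :=
          Real.rpow_le_rpow_of_exponent_le hv1 (by linarith)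
      _ = v := Real.rpow_one _
  have hr1 := fun x u w e l => r1_val (v := v) (k := k) (s := s) (t := t) x u w e l
  have hr2 := fun x u w e l => r2_val (v := v) (s := s) (t := t) x u w e l
  have key : ∀ y : Edge v → Bool, clq v k (fun e => !(y e)) = true ↔ ¬ nis v k y = true := by
    intro y
    rw [clq_not, Bool.not_eq_true', Bool.not_eq_true]
  rcases h with ⟨h | h, hsr⟩ | ⟨h | h, hsr⟩
  · -- the NP mode, `More`
    have h3 := hv₁ v hva k N hk hN s t (sb (r1 v k s t) C) (sb_free hr1 C hfree)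
      (fun x => by rw [sb_acc hr1 C, h, good1 hk2 hkv]) (by rw [sb_nots]; exact hsr)
    rw [sb_length] at h3
    exact h3
  · -- the coNP mode, `More`
    have h3 := hv₁ v hva k N hk hN s t (dl (sb (r2 v s t) C)) (dl_free _ (sb_free hr2 C hfree))
      (fun x => by rw [dl_acc, sb_all hr2 C, h, good2 hk2, key, not_not])
      (by rw [dl_nots, sb_nots]; exact hsr)
    rw [dl_length, sb_length] at h3
    exact h3
  · -- the NP mode, complement
    have h3 := hv₂ v hvb k N hk hN s t (sb (r1 v k s t) C) (sb_free hr1 C hfree)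
      (fun x => (sb_acc hr1 C x).trans ((h _).trans (not_congr (good1 hk2 hkv x))))
      (by rw [sb_nots]; exact hsr)
    rw [sb_length] at h3
    exact h3
  · -- the coNP mode, complement
    have h3 := hv₂ v hvb k N hk hN s t (dl (sb (r2 v s t) C)) (dl_free _ (sb_free hr2 C hfree))
      (fun x => (dl_acc _ x).trans ((not_congr ((sb_all hr2 C _).trans
        ((h _).trans (not_congr (good2 hk2 _))))).trans (by rw [not_not, key])))
      (by rw [dl_nots, sb_nots]; exact hsr)
    rw [dl_length, sb_length] at h3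
    exact h3

end Pool.Agent.NLM
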