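import Pool.Agent.NLM.Trans
import Pool.Agent.NegLim.Up
import Pool.Agent.NEG72.WinU

/-!
# The PP mode: small monotone circuits
-/

set_option autoImplicit false

namespace Pool.Agent.NLM

open Pool.Agent.NegLim Pool.Agent.NNDT
open Pool.Agent.NEG72 (clq_iff nis_iff)

variable {E E' : Type} {s t : ℕ}

/-! ### conversion -/

lemma Makes.all {ι : Type} {S : Set (Fn E s t)} {K : ℕ} {F : ι → Fn E s t} (l : List ι)
    (h : ∀ i ∈ l, Makes S K {F i}) :
    Makes S (l.length * (K + 1)) {fun x u w => l.all fun i => F i x u w} := by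
  induction l with
  | nil => exact (Makes.wit S fun _ _ => true).le (by simp)
  | cons i l ih =>
    have h1 := (h i List.mem_cons_self).and (ih fun j hj => h j (List.mem_cons_of_mem _ hj))
    refine (h1.le ?_).subset ?_
    · rw [List.length_cons, Nat.add_mul]
      omega
    · intro f hf
      rw [Set.mem_singleton_iff.1 hf]
      rfl

/-- From a program without witness to a circuit. -/
lemma of_makes {K : ℕ} {f : Fn E' 0 0} (h : Makes ∅ K {f}) : ∃ C : NCirc E' 0 0,
    C.gates.length ≤ K ∧ C.nots = 0 ∧ ∀ X u w, outp C X u w = f X u w := by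
  obtain ⟨M, h1, h2, h3⟩ := h [] (by simp)
  have h4 := h2 0 Prg.nil
  rw [List.append_nil] at h4
  have h5 := h3 f rfl
  rw [List.append_nil] at h5
  obtain ⟨C, c1, c2, c3, _⟩ := conv h4
  obtain ⟨a, ha⟩ := conv_wire h5
  refine ⟨⟨C, a⟩, by rw [c1]; exact h1, c2, fun X u w => ?_⟩
  show a.val X u w (vals C X u w) = f X u w
  rw [c3, ha]

lemma wlit0 (a : Wire E' 0 0) : WLit a := by
  cases a with
  | inp e => trivial
  | gate n => trivial
  | wit φ =>
    refine Or.inl ⟨φ default default, fun u w => ?_⟩
    rw [Subsingleton.elim u default, Subsingleton.elim w default]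

/-- the wires which read the coins -/
def rc (E : Type) (t : ℕ) : E ⊕ (Fin t × Bool) → Wire E 0 t
  | Sum.inl e => Wire.inp e
  | Sum.inr (i, b) => Wire.wit fun _ w => xor b (w i)

/-- the input of the program without witness -/
def Xc (x : E → Bool) (w : Fin t → Bool) : E ⊕ (Fin t × Bool) → Bool
  | Sum.inl e => x e
  | Sum.inr (i, b) => xor b (w i)

lemma rc_val (x : E → Bool) (u : Fin 0 → Bool) (w : Fin t → Bool) (e : E ⊕ (Fin t × Bool))
    (l : List Bool) : (rc E t e).val x u w l = xor false (Xc x w e) := by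
  rw [Bool.false_xor]
  rcases e with e | ⟨i, b⟩ <;> rfl

lemma rc_lit (e : E ⊕ (Fin t × Bool)) : WLit (rc E t e) := by
  rcases e with e | ⟨i, b⟩
  · trivial
  · cases b with
    | false => exact Or.inr (Or.inr (Or.inr (Or.inl ⟨i, fun u w => Bool.false_xor _⟩)))
    | true => exact Or.inr (Or.inr (Or.inr (Or.inr ⟨i, fun u w => Bool.true_xor _⟩)))

lemma rc_tw (j : ℕ) (a : Wire (E ⊕ (Fin t × Bool)) 0 0) :
    WLit (tw false (rc E t) (fun u _ => u) (fun _ _ => Fin.elim0) j a) := by
  cases a with
  | inp e => exact rc_lit e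
  | gate n =>
    show WLit (if n < j then Wire.gate n else Wire.wit fun _ _ => false : Wire E 0 t)
    split_ifs
    · trivial
    · exact Or.inl ⟨false, fun _ _ => rfl⟩
  | wit φ =>
    refine Or.inl ⟨φ default default, fun u w => ?_⟩
    show xor false (φ u Fin.elim0) = _
    rw [Bool.false_xor, Subsingleton.elim u default,
      Subsingleton.elim (Fin.elim0 : Fin 0 → Bool) default]

/-- From a program that reads coins and negated coins as input bits to a circuit of literals. -/
lemma of_makes_lit {K : ℕ} {f : Fn (E ⊕ (Fin t × Bool)) 0 0} (h : Makes ∅ K {f}) :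
    ∃ C : NCirc E 0 t, Lit C ∧ C.nots = 0 ∧ C.gates.length ≤ K ∧
      ∀ x u w, outp C x u w = f (Xc x w) default default := by
  obtain ⟨C, h1, h2, h3⟩ := of_makes h
  refine ⟨tc false (rc E t) (fun u _ => u) (fun _ _ => Fin.elim0) C, ⟨fun g hg => ?_, rc_tw _ _⟩,
    by rw [tc_nots]; exact h2, by rw [tc_length]; exact h1, fun x u w => ?_⟩
  · have hg' : g ∈ C.gates.mapIdx (tg false (rc E t) (fun u _ => u) (fun _ _ => Fin.elim0)) := hg
    rw [List.mem_mapIdx] at hg'
    obtain ⟨i, hi, rfl⟩ := hg'
    cases C.gates[i] with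
    | and a c => exact ⟨rc_tw _ _, rc_tw _ _⟩
    | or a c => exact ⟨rc_tw _ _, rc_tw _ _⟩
    | not a => exact rc_tw i a
  · have h4 := tc_out false (rc E t) (fun u _ => u) (fun _ _ => Fin.elim0) (x := x) (u := u)
      (w := w) (X := Xc x w) (rc_val x u w) C
    rw [Bool.false_xor] at h4
    rw [h4, h3, Subsingleton.elim u default,
      Subsingleton.elim (Fin.elim0 : Fin 0 → Bool) default]

/-! ### the tests of one set -/

section

variable {v : ℕ}

/-- the number of the elements of the set -/
def sz (a : Fin v → Bool) : ℕ := (List.finRange v).countP fun i => a i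

/-- the set has exactly `k` elements and all its pairs are edges -/
def tAnd (v k : ℕ) (x : Edge v → Bool) (a : Fin v → Bool) : Prop :=
  sz a = k ∧ ∀ e : Edge v, a e.1.1 = true → a e.1.2 = true → x e = true

/-- the set does not have exactly `k` elements or contains an edge -/
def tOr (v k : ℕ) (x : Edge v → Bool) (a : Fin v → Bool) : Prop :=
  sz a ≠ k ∨ ∃ e : Edge v, a e.1.1 = true ∧ a e.1.2 = true ∧ x e = true

open Classical in
lemma sz_card (a : Fin v → Bool) : sz a = (Finset.univ.filter fun i => a i = true).card := by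
  unfold sz
  rw [List.countP_eq_length_filter, ← List.toFinset_card_of_nodup
    ((List.nodup_finRange v).filter _)]
  congr 1
  ext i
  simp

open Classical in
lemma sz_mem (S : Finset (Fin v)) : sz (fun i => decide (i ∈ S)) = S.card := by
  rw [sz_card]
  congr 1
  ext i
  simp

lemma count_bij (P : Finset (Fin v) → Prop) (Q : (Fin v → Bool) → Prop) [DecidablePred P]
    [DecidablePred Q] (h : ∀ a, Q a ↔ P (Finset.univ.filter fun i => a i = true)) :
    (Finset.univ.filter fun a => Q a).card =
      ((Finset.univ : Finset (Finset (Fin v))).filter fun S => P S).card := by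
  classical
  have e : (Finset.univ.filter fun a => Q a).card =
      ((Finset.univ.filter fun a => Q a).image fun a => Finset.univ.filter fun i => a i = true).card := by
    symm
    apply Finset.card_image_of_injective
    intro a b hab
    funext i
    have h1 := Finset.ext_iff.1 hab i
    simp only [Finset.mem_filter, Finset.mem_univ, true_and] at h1
    rw [Bool.eq_iff_iff]
    exact h1
  rw [e]
  congr 1
  ext S
  simp only [Finset.mem_image, Finset.mem_filter, Finset.mem_univ, true_and]
  constructor
  · rintro ⟨a, ha, rfl⟩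
    exact (h a).1 ha
  · intro hS
    have h2 : (Finset.univ.filter fun i => decide (i ∈ S) = true) = S := by
      ext i
      simp
    refine ⟨fun i => decide (i ∈ S), (h _).2 ?_, h2⟩
    rw [h2]
    exact hS

open Classical in
lemma cliques_eq (k : ℕ) (x : Edge v → Bool) :
    (Finset.univ.filter fun a => tAnd v k x a).card = cliques v k x := by
  unfold cliques
  refine count_bij (fun S => S.card = k ∧ ∀ e : Edge v, e.1.1 ∈ S → e.1.2 ∈ S → x e = true)
    (fun a => tAnd v k x a) fun a => ?_
  unfold tAnd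
  rw [sz_card]
  simp only [Finset.mem_filter, Finset.mem_univ, true_and]

open Classical in
lemma indeps_eq (k : ℕ) (x : Edge v → Bool) :
    (Finset.univ.filter fun a => ¬ tOr v k x a).card = indeps v k x := by
  unfold indeps
  refine count_bij (fun S => S.card = k ∧ ∀ e : Edge v, e.1.1 ∈ S → e.1.2 ∈ S → x e = false)
    (fun a => ¬ tOr v k x a) fun a => ?_
  unfold tOr
  rw [sz_card]
  simp only [Finset.mem_filter, Finset.mem_univ, true_and]
  push Not
  simp only [Bool.not_eq_true]

/-! ### the program -/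

/-- a coin (`b = false`) or a negated coin (`b = true`) of the set -/
def c1 (v : ℕ) (b : Bool) (i : Fin v) : (Edge v ⊕ Edge v) ⊕ (Fin (v + 1) × Bool) :=
  Sum.inr (Fin.castAdd 1 i, b)

/-- the last coin -/
def c3 (v : ℕ) (b : Bool) : (Edge v ⊕ Edge v) ⊕ (Fin (v + 1) × Bool) :=
  Sum.inr (Fin.natAdd v 0, b)

/-- the list of the pairs of vertices -/
noncomputable def el (v : ℕ) : List (Edge v) := (Finset.univ : Finset (Edge v)).toList

lemma el_length (v : ℕ) : 2 * (el v).length + v ≤ v * v := by
  unfold el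
  rw [Finset.length_toList, Finset.card_univ, Pool.Agent.NEG72.card_edge]
  have h1 := Nat.mul_div_le (v * (v - 1)) 2
  have h2 : v * v = v * (v - 1) + v := by
    rcases Nat.eq_zero_or_pos v with rfl | h
    · rfl
    · obtain ⟨w, rfl⟩ : ∃ w, v = w + 1 := ⟨v - 1, by omega⟩
      simp only [Nat.add_sub_cancel]
      ring
  omega

lemma mem_el (e : Edge v) : e ∈ el v := by
  unfold el
  simp

/-- the test of the first graph -/
noncomputable def fAnd (v k : ℕ) : Fn ((Edge v ⊕ Edge v) ⊕ (Fin (v + 1) × Bool)) 0 0 :=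
  fun X u w => (thr ((List.finRange v).map (c1 v false)) k X u w &&
    thr ((List.finRange v).map (c1 v true)) (v - k) X u w) &&
    (el v).all fun e => X (c1 v true e.1.1) || (X (c1 v true e.1.2) || X (Sum.inl (Sum.inl e)))

/-- the test of the second graph -/
noncomputable def fOr (v k : ℕ) : Fn ((Edge v ⊕ Edge v) ⊕ (Fin (v + 1) × Bool)) 0 0 :=
  fun X u w => (thr ((List.finRange v).map (c1 v false)) (k + 1) X u w ||
    thr ((List.finRange v).map (c1 v true)) (v + 1 - k) X u w) ||
    (el v).any fun e => X (c1 v false e.1.1) && (X (c1 v false e.1.2) && X (Sum.inl (Sum.inr e)))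

/-- the program -/
noncomputable def fP (v k : ℕ) : Fn ((Edge v ⊕ Edge v) ⊕ (Fin (v + 1) × Bool)) 0 0 :=
  fun X u w => (X (c3 v true) && fAnd v k X u w) || (X (c3 v false) && fOr v k X u w)

lemma makes_fP {k : ℕ} (hv : 2 ≤ v) (hk : k ≤ v) : Makes ∅ (14 * v ^ 2) {fP v k} := by
  have t0 : ∀ b a, Makes (∅ : Set (Fn ((Edge v ⊕ Edge v) ⊕ (Fin (v + 1) × Bool)) 0 0))
      (v * (2 * (a + 1))) {thr ((List.finRange v).map (c1 v b)) a} := by
    intro b a
    have h := makes_thr (s := 0) (t := 0) ∅ a ((List.finRange v).map (c1 v b))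
    rw [List.length_map, List.length_finRange] at h
    exact h.subset fun f hf => ⟨a, le_rfl, hf⟩
  have t3 := Makes.any (el v) (fun (e : Edge v) _ =>
    (Makes.inp (s := 0) (t := 0) ∅ (c1 v false e.1.1)).and
      ((Makes.inp ∅ (c1 v false e.1.2)).and (Makes.inp ∅ (Sum.inl (Sum.inr e)))))
  have t4 := Makes.all (el v) (fun (e : Edge v) _ =>
    (Makes.inp (s := 0) (t := 0) ∅ (c1 v true e.1.1)).or
      ((Makes.inp ∅ (c1 v true e.1.2)).or (Makes.inp ∅ (Sum.inl (Sum.inl e)))))
  have i3 : ∀ b, Makes (∅ : Set (Fn ((Edge v ⊕ Edge v) ⊕ (Fin (v + 1) × Bool)) 0 0)) 0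
      {fun X _ _ => X (c3 v b)} := fun b => Makes.inp ∅ _
  have t6 := ((i3 true).and (((t0 false k).and (t0 true (v - k))).and t4)).or
    ((i3 false).and (((t0 false (k + 1)).or (t0 true (v + 1 - k))).or t3))
  refine (t6.le ?_).subset (fun f hf => hf)
  have he := el_length v
  have h1 : v * (2 * (k + 1)) + v * (2 * (v - k + 1)) + (v * (2 * (k + 1 + 1)) +
      v * (2 * (v + 1 - k + 1))) = 4 * (v * v) + 12 * v := by
    obtain ⟨d, rfl⟩ := Nat.exists_eq_add_of_le hk
    have e1 : k + d - k = d := by omega
    have e2 : k + d + 1 - k = d + 1 := by omega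
    rw [e1, e2]
    ring
  have h2 : 2 * v ≤ v * v := Nat.mul_le_mul_right v hv
  have h3 : 14 * v ^ 2 = 14 * (v * v) := by ring
  rw [h3]
  nlinarith

/-! ### the values of the program -/

variable {z : Edge v ⊕ Edge v → Bool} {a : Fin v → Bool} {c : Fin 1 → Bool}

lemma x1 (bb : Bool) (i : Fin v) :
    Xc z (Fin.append a c) (c1 v bb i) = xor bb (a i) := by
  show xor bb ((Fin.append a c) (Fin.castAdd 1 i)) = _
  rw [Fin.append_left]

lemma x3 (bb : Bool) : Xc z (Fin.append a c) (c3 v bb) = xor bb (c 0) := by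
  show xor bb ((Fin.append a c) (Fin.natAdd v 0)) = _
  rw [Fin.append_right]

lemma sz_le (a : Fin v → Bool) : sz a ≤ v := by
  unfold sz
  calc (List.finRange v).countP (fun i => a i) ≤ (List.finRange v).length :=
        List.countP_le_length
    _ = v := List.length_finRange

lemma zeros (a : Fin v → Bool) : (List.finRange v).countP (fun i => !(a i)) = v - sz a := by
  have h := List.length_eq_countP_add_countP (l := List.finRange v) (fun i => a i)
  rw [List.length_finRange] at h
  have h2 : (List.finRange v).countP (fun i => !(a i)) =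
      (List.finRange v).countP (fun i => decide ¬ (a i = true)) := by
    congr 1
    funext i
    cases a i <;> rfl
  unfold sz
  rw [h2]
  omega

lemma comp1 (bb : Bool) : ((fun e => Xc z (Fin.append a c) e) ∘ c1 v bb) =
    fun i => xor bb (a i) := by
  funext i
  simp only [Function.comp_apply, x1]

lemma vOr {k : ℕ} (hk : k ≤ v) (u : Fin 0 → Bool) (w : Fin 0 → Bool) :
    fOr v k (Xc z (Fin.append a c)) u w = true ↔ tOr v k (fun e => z (Sum.inr e)) a := by
  unfold fOr tOr
  rw [Bool.or_eq_true, Bool.or_eq_true, thr_eq, thr_eq, decide_eq_true_iff, decide_eq_true_iff,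
    List.countP_map, List.countP_map, List.any_eq_true, comp1, comp1]
  simp only [Bool.true_xor, Bool.false_xor]
  rw [zeros]
  have h2 := sz_le a
  apply or_congr
  · show k + 1 ≤ sz a ∨ _ ↔ _
    omega
  · constructor
    · rintro ⟨e, _, h⟩
      simp only [x1, Bool.false_xor, Bool.and_eq_true] at h
      exact ⟨e, h.1, h.2.1, h.2.2⟩
    · rintro ⟨e, h3, h4, h5⟩
      refine ⟨e, mem_el e, ?_⟩
      simp only [x1, Bool.false_xor, Bool.and_eq_true]
      exact ⟨h3, h4, h5⟩

lemma vAnd {k : ℕ} (hk : k ≤ v) (u : Fin 0 → Bool) (w : Fin 0 → Bool) :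
    fAnd v k (Xc z (Fin.append a c)) u w = true ↔ tAnd v k (fun e => z (Sum.inl e)) a := by
  unfold fAnd tAnd
  rw [Bool.and_eq_true, Bool.and_eq_true, thr_eq, thr_eq, decide_eq_true_iff, decide_eq_true_iff,
    List.countP_map, List.countP_map, List.all_eq_true, comp1, comp1]
  simp only [Bool.true_xor, Bool.false_xor]
  rw [zeros]
  have h2 := sz_le a
  apply and_congr
  · show k ≤ sz a ∧ _ ↔ _
    omega
  · constructor
    · intro h e h3 h4
      have h5 := h e (mem_el e)
      simp only [x1, Bool.true_xor, h3, h4, Bool.not_true, Bool.false_or] at h5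
      exact h5
    · intro h e _
      simp only [x1, Bool.true_xor]
      cases h3 : a e.1.1 with
      | false => rfl
      | true =>
        cases h4 : a e.1.2 with
        | false => rfl
        | true =>
          simp only [Bool.not_true, Bool.false_or]
          exact h e h3 h4

/-- the value of the program -/
lemma vP {k : ℕ} (hk : k ≤ v) (u : Fin 0 → Bool) (w : Fin 0 → Bool) :
    (fP v k (Xc z (Fin.append a c)) u w = true) ↔
      (c 0 = false ∧ tAnd v k (fun e => z (Sum.inl e)) a) ∨
      (c 0 = true ∧ tOr v k (fun e => z (Sum.inr e)) a) := by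
  unfold fP
  simp only [Bool.or_eq_true, Bool.and_eq_true, x3, Bool.true_xor, Bool.false_xor, vOr hk, vAnd hk,
    Bool.not_eq_true']

open Classical in
/-- the number of the words which are accepted -/
lemma count {k : ℕ} (hk : k ≤ v) (z : Edge v ⊕ Edge v → Bool) :
    ∑ w : Fin (v + 1) → Bool, (if fP v k (Xc z w) default default = true then 1 else 0) =
      (Finset.univ.filter fun a => tAnd v k (fun e => z (Sum.inl e)) a).card +
        (Finset.univ.filter fun a => tOr v k (fun e => z (Sum.inr e)) a).card := by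
  rw [← (Fin.appendEquiv v 1).sum_comp, Fintype.sum_prod_type]
  have h1 : ∀ a : Fin v → Bool, ∑ c : Fin 1 → Bool,
      (if fP v k (Xc z (Fin.appendEquiv v 1 (a, c))) default default = true then 1 else 0) =
      (if tAnd v k (fun e => z (Sum.inl e)) a then 1 else 0) +
        (if tOr v k (fun e => z (Sum.inr e)) a then 1 else 0) := by
    intro a
    have happ : ∀ c, Fin.appendEquiv v 1 (a, c) = Fin.append a c := fun _ => rfl
    have harr : ∀ p : Bool, (Equiv.funUnique (Fin 1) Bool).symm p = fun _ => p := fun _ => rfl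
    rw [← (Equiv.funUnique (Fin 1) Bool).symm.sum_comp]
    simp only [Fintype.sum_bool, happ, vP hk, harr]
    by_cases h3 : tOr v k (fun e => z (Sum.inr e)) a <;>
      by_cases h4 : tAnd v k (fun e => z (Sum.inl e)) a <;> simp [h3, h4]
  simp only [h1]
  rw [Finset.sum_add_distrib, Finset.card_filter, Finset.card_filter]

open Classical in
/-- **The PP mode.** -/
theorem pp_mode (v k : ℕ) (hv : 2 ≤ v) (hk : k ≤ v) :
    ∃ C : NCirc (Edge v ⊕ Edge v) 0 (v + 1), Lit C ∧ C.nots = 0 ∧
      C.gates.length ≤ 14 * v ^ 2 ∧ ∀ z, Maj C z ↔ More v k z := by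
  obtain ⟨C, h1, h2, h3, h4⟩ := of_makes_lit (makes_fP hv hk)
  refine ⟨C, h1, h2, h3, fun z => ?_⟩
  have hcard : (Finset.univ.filter fun p : (Fin 0 → Bool) × (Fin (v + 1) → Bool) =>
      outp C z p.1 p.2 = true).card =
        (Finset.univ.filter fun a => tAnd v k (fun e => z (Sum.inl e)) a).card +
        (Finset.univ.filter fun a => tOr v k (fun e => z (Sum.inr e)) a).card := by
    rw [← count hk, Finset.card_filter, Fintype.sum_prod_type, Fintype.sum_unique]
    simp only [h4]
  have hsum : (Finset.univ.filter fun a => tOr v k (fun e => z (Sum.inr e)) a).card +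
      (Finset.univ.filter fun a => ¬ tOr v k (fun e => z (Sum.inr e)) a).card = 2 ^ v := by
    rw [Finset.card_filter_add_card_filter_not, Finset.card_univ, Fintype.card_fun,
      Fintype.card_bool, Fintype.card_fin]
  unfold Maj More
  rw [hcard, cliques_eq]
  rw [indeps_eq] at hsum
  have hp : 2 ^ (0 + (v + 1)) = 2 * 2 ^ v := by
    rw [zero_add, pow_succ]
    ring
  rw [hp]
  omega

end

end Pool.Agent.NLM
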