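import Pool.Agent.NLM.Defs
import Pool.Agent.NNDT.Lit

/-!
# Substitutions in circuits and dual circuits
-/

set_option autoImplicit false

namespace Pool.Agent.NLM

open Pool.Agent.NegLim Pool.Agent.NNDT

variable {E E' : Type} {s t s' t' : ℕ}

/-- The wire after the substitution of the wires `ρ e` for the input bits and of `πu`, `πw` for the witness;
if `b` is `true` all values are negated. The wire belongs to the gate number `j`. -/
def tw (b : Bool) (ρ : E' → Wire E s t) (πu : (Fin s → Bool) → (Fin t → Bool) → Fin s' → Bool)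
    (πw : (Fin s → Bool) → (Fin t → Bool) → Fin t' → Bool) (j : ℕ) : Wire E' s' t' → Wire E s t
  | Wire.inp e => ρ e
  | Wire.wit φ => Wire.wit fun u w => xor b (φ (πu u w) (πw u w))
  | Wire.gate n => if n < j then Wire.gate n else Wire.wit fun _ _ => b

/-- The gate after the substitution. -/
def tg (b : Bool) (ρ : E' → Wire E s t) (πu : (Fin s → Bool) → (Fin t → Bool) → Fin s' → Bool)
    (πw : (Fin s → Bool) → (Fin t → Bool) → Fin t' → Bool) (j : ℕ) : Gate E' s' t' → Gate E s t
  | Gate.and a c => if b then Gate.or (tw b ρ πu πw j a) (tw b ρ πu πw j c)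
      else Gate.and (tw b ρ πu πw j a) (tw b ρ πu πw j c)
  | Gate.or a c => if b then Gate.and (tw b ρ πu πw j a) (tw b ρ πu πw j c)
      else Gate.or (tw b ρ πu πw j a) (tw b ρ πu πw j c)
  | Gate.not a => Gate.not (tw b ρ πu πw j a)

/-- The gates after the substitution. -/
def tl (b : Bool) (ρ : E' → Wire E s t) (πu : (Fin s → Bool) → (Fin t → Bool) → Fin s' → Bool)
    (πw : (Fin s → Bool) → (Fin t → Bool) → Fin t' → Bool) (C : List (Gate E' s' t')) :
    List (Gate E s t) := C.mapIdx (tg b ρ πu πw)

/-- The circuit after the substitution. -/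
def tc (b : Bool) (ρ : E' → Wire E s t) (πu : (Fin s → Bool) → (Fin t → Bool) → Fin s' → Bool)
    (πw : (Fin s → Bool) → (Fin t → Bool) → Fin t' → Bool) (C : NCirc E' s' t') : NCirc E s t :=
  ⟨tl b ρ πu πw C.gates, tw b ρ πu πw C.gates.length C.out⟩

section

variable (b : Bool) (ρ : E' → Wire E s t) (πu : (Fin s → Bool) → (Fin t → Bool) → Fin s' → Bool)
  (πw : (Fin s → Bool) → (Fin t → Bool) → Fin t' → Bool)

lemma tl_length (C : List (Gate E' s' t')) : (tl b ρ πu πw C).length = C.length :=
  List.length_mapIdx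

lemma tl_concat (C : List (Gate E' s' t')) (g : Gate E' s' t') :
    tl b ρ πu πw (C ++ [g]) = tl b ρ πu πw C ++ [tg b ρ πu πw C.length g] := by
  unfold tl
  rw [List.mapIdx_append_one]

lemma tg_isNot (j : ℕ) (g : Gate E' s' t') : (tg b ρ πu πw j g).isNot = g.isNot := by
  cases g <;> cases b <;> rfl

lemma tl_nots (C : List (Gate E' s' t')) :
    (tl b ρ πu πw C).countP Gate.isNot = C.countP Gate.isNot := by
  induction C using List.reverseRecOn with
  | nil => rfl
  | append_singleton C g ih =>
    rw [tl_concat, List.countP_append, List.countP_append, ih, List.countP_singleton,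
      List.countP_singleton, tg_isNot]

lemma tc_nots (C : NCirc E' s' t') : (tc b ρ πu πw C).nots = C.nots := tl_nots b ρ πu πw C.gates

lemma tc_length (C : NCirc E' s' t') : (tc b ρ πu πw C).gates.length = C.gates.length :=
  tl_length b ρ πu πw C.gates

variable {x : E → Bool} {u : Fin s → Bool} {w : Fin t → Bool} {X : E' → Bool}
  (hρ : ∀ e l, (ρ e).val x u w l = xor b (X e))

include hρ in
lemma tw_val (l : List Bool) (a : Wire E' s' t') :
    (tw b ρ πu πw l.length a).val x u w (l.map fun c => xor b c) =
      xor b (a.val X (πu u w) (πw u w) l) := by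
  cases a with
  | inp e => exact hρ e _
  | wit φ => rfl
  | gate n =>
    show (if n < l.length then Wire.gate n else Wire.wit fun _ _ => b : Wire E s t).val x u w _ = _
    split_ifs with h
    · show (l.map fun c => xor b c).getD n false = xor b (l.getD n false)
      rw [List.getD_eq_getElem _ _ (by simpa using h), List.getD_eq_getElem _ _ h,
        List.getElem_map]
    · show b = xor b (l.getD n false)
      rw [List.getD_eq_default _ _ (not_lt.1 h), Bool.xor_false]

include hρ in
lemma tl_vals (C : List (Gate E' s' t')) : vals (tl b ρ πu πw C) x u w =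
    (vals C X (πu u w) (πw u w)).map fun c => xor b c := by
  induction C using List.reverseRecOn with
  | nil => rfl
  | append_singleton C g ih =>
    rw [tl_concat, vals_concat, vals_concat, List.map_append, ih, List.map_singleton]
    congr 2
    have hlen : C.length = (vals C X (πu u w) (πw u w)).length := (vals_length ..).symm
    rw [hlen]
    cases g with
    | and a c =>
      have h1 := tw_val b ρ πu πw hρ (vals C X (πu u w) (πw u w)) a
      have h2 := tw_val b ρ πu πw hρ (vals C X (πu u w) (πw u w)) c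
      cases b with
      | false =>
        show (_ && _) = xor false (_ && _)
        rw [h1, h2, Bool.false_xor, Bool.false_xor, Bool.false_xor]
      | true =>
        show (_ || _) = xor true (_ && _)
        rw [h1, h2, Bool.true_xor, Bool.true_xor, Bool.true_xor, Bool.not_and]
    | or a c =>
      have h1 := tw_val b ρ πu πw hρ (vals C X (πu u w) (πw u w)) a
      have h2 := tw_val b ρ πu πw hρ (vals C X (πu u w) (πw u w)) c
      cases b with
      | false =>
        show (_ || _) = xor false (_ || _)
        rw [h1, h2, Bool.false_xor, Bool.false_xor, Bool.false_xor]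
      | true =>
        show (_ && _) = xor true (_ || _)
        rw [h1, h2, Bool.true_xor, Bool.true_xor, Bool.true_xor, Bool.not_or]
    | not a =>
      have h1 := tw_val b ρ πu πw hρ (vals C X (πu u w) (πw u w)) a
      show (!_) = xor b (!_)
      rw [h1, Bool.xor_not]

include hρ in
lemma tc_out (C : NCirc E' s' t') :
    outp (tc b ρ πu πw C) x u w = xor b (outp C X (πu u w) (πw u w)) := by
  have h := tl_vals b ρ πu πw hρ C.gates
  have h1 := tw_val b ρ πu πw hρ (vals C.gates X (πu u w) (πw u w)) C.out
  rw [vals_length] at h1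
  unfold outp tc
  simp only
  rw [h]
  exact h1

end

/-! ### one witness, constant substitution -/

lemma get_not {C : List (Gate E' s' t')} {b : Bool} {ρ : E' → Wire E s t}
    {πu : (Fin s → Bool) → (Fin t → Bool) → Fin s' → Bool}
    {πw : (Fin s → Bool) → (Fin t → Bool) → Fin t' → Bool} {n : ℕ}
    (h : ∃ a, (tl b ρ πu πw C)[n]? = some (Gate.not a)) : ∃ a, C[n]? = some (Gate.not a) := by
  obtain ⟨a, ha⟩ := h
  unfold tl at ha
  rw [List.getElem?_mapIdx] at ha
  cases hg : C[n]? with
  | none =>
    rw [hg] at ha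
    cases ha
  | some g =>
    rw [hg, Option.map_some, Option.some.injEq] at ha
    cases g with
    | and a c => cases b <;> cases ha
    | or a c => cases b <;> cases ha
    | not a => exact ⟨a, rfl⟩

/-- The substitution of constants and input bits; `X x` is the new input. -/
lemma tc_free (b : Bool) (ρ : E' → Wire E s t) (X : (E → Bool) → E' → Bool)
    (hρ : ∀ x u w e l, (ρ e).val x u w l = xor b (X x e)) (C : NCirc E' s t)
    (hC : C.NotsFree) : (tc b ρ (fun u _ => u) (fun _ w => w) C).NotsFree := by
  intro n hn x u w w'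
  have h1 : vals (tl b ρ (fun u _ => u) (fun _ w => w) C.gates) x u w = _ :=
    tl_vals b ρ (fun u _ => u) (fun _ w => w) (hρ x u w) C.gates
  have h2 : vals (tl b ρ (fun u _ => u) (fun _ w => w) C.gates) x u w' = _ :=
    tl_vals b ρ (fun u _ => u) (fun _ w => w) (hρ x u w') C.gates
  show (vals (tl b ρ (fun u _ => u) (fun _ w => w) C.gates) x u w)[n]? =
    (vals (tl b ρ (fun u _ => u) (fun _ w => w) C.gates) x u w')[n]?
  rw [h1, h2, List.getElem?_map, List.getElem?_map, hC n (get_not hn) (X x) u w w']

/-- The dual circuit. -/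
def dl (C : NCirc E s t) : NCirc E s t :=
  tc true (fun e => Wire.inp e) (fun u _ => u) (fun _ w => w) C

lemma dl_out (C : NCirc E s t) (x : E → Bool) (u : Fin s → Bool) (w : Fin t → Bool) :
    outp (dl C) x u w = !(outp C (fun e => !(x e)) u w) := by
  have h := tc_out (s' := s) (t' := t) true (fun e => (Wire.inp e : Wire E s t)) (fun u _ => u)
    (fun _ w => w) (x := x) (u := u) (w := w) (X := fun e => !(x e)) (fun e l => by simp [Wire.val]) C
  rw [Bool.true_xor] at h
  exact h

lemma dl_free (C : NCirc E s t) (hC : C.NotsFree) : (dl C).NotsFree :=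
  tc_free true _ (fun x e => !(x e)) (fun x u w e l => by simp [Wire.val]) C hC

lemma dl_nots (C : NCirc E s t) : (dl C).nots = C.nots := tc_nots ..

lemma dl_length (C : NCirc E s t) : (dl C).gates.length = C.gates.length := tc_length ..

lemma dl_acc (C : NCirc E s t) (x : E → Bool) :
    (dl C).Acc x ↔ ¬ All C (fun e => !(x e)) := by
  constructor
  · rintro ⟨u, w, h⟩ h2
    have h3 := dl_out C x u w
    have h4 : outp (dl C) x u w = true := h
    rw [h4, h2 u w] at h3
    exact absurd h3 (by decide)
  · intro h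
    unfold All at h
    push Not at h
    obtain ⟨u, w, h⟩ := h
    refine ⟨u, w, ?_⟩
    show outp (dl C) x u w = true
    rw [dl_out, Bool.not_eq_true']
    simpa using h

lemma dl_all (C : NCirc E s t) (x : E → Bool) :
    All (dl C) x ↔ ¬ C.Acc (fun e => !(x e)) := by
  constructor
  · rintro h ⟨u, w, h2⟩
    have h3 := dl_out C x u w
    have h4 : outp C (fun e => !(x e)) u w = true := h2
    rw [h u w, h4] at h3
    exact absurd h3 (by decide)
  · intro h u w
    rw [dl_out, Bool.not_eq_true', ← Bool.not_eq_true]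
    intro h2
    exact h ⟨u, w, h2⟩

/-! ### literals -/

lemma tw_lit {b : Bool} {ρ : E' → Wire E s t}
    (hρ : ∀ e, WLit (ρ e)) (j : ℕ) {a : Wire E' s t} (ha : WLit a) :
    WLit (tw b ρ (fun u _ => u) (fun _ w => w) j a) := by
  cases a with
  | inp e => exact hρ e
  | gate n =>
    show WLit (if n < j then Wire.gate n else Wire.wit fun _ _ => b : Wire E s t)
    split_ifs
    · trivial
    · exact Or.inl ⟨b, fun _ _ => rfl⟩
  | wit φ =>
    show (∃ c, ∀ u w, (xor b (φ u w)) = c) ∨ (∃ i, ∀ u w, (xor b (φ u w)) = u i) ∨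
      (∃ i, ∀ u w, (xor b (φ u w)) = !(u i)) ∨ (∃ i, ∀ u w, (xor b (φ u w)) = w i) ∨
        ∃ i, ∀ u w, (xor b (φ u w)) = !(w i)
    rcases ha with ⟨c, h⟩ | ⟨i, h⟩ | ⟨i, h⟩ | ⟨i, h⟩ | ⟨i, h⟩
    · exact Or.inl ⟨xor b c, fun u w => by rw [h]⟩
    · cases b with
      | false => exact Or.inr (Or.inl ⟨i, fun u w => by rw [h, Bool.false_xor]⟩)
      | true => exact Or.inr (Or.inr (Or.inl ⟨i, fun u w => by rw [h, Bool.true_xor]⟩))
    · cases b with
      | false => exact Or.inr (Or.inr (Or.inl ⟨i, fun u w => by rw [h, Bool.false_xor]⟩))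
      | true => exact Or.inr (Or.inl ⟨i, fun u w => by rw [h, Bool.true_xor, Bool.not_not]⟩)
    · cases b with
      | false => exact Or.inr (Or.inr (Or.inr (Or.inl ⟨i, fun u w => by rw [h, Bool.false_xor]⟩)))
      | true => exact Or.inr (Or.inr (Or.inr (Or.inr ⟨i, fun u w => by rw [h, Bool.true_xor]⟩)))
    · cases b with
      | false => exact Or.inr (Or.inr (Or.inr (Or.inr ⟨i, fun u w => by rw [h, Bool.false_xor]⟩)))
      | true =>
        exact Or.inr (Or.inr (Or.inr (Or.inl ⟨i, fun u w => by rw [h, Bool.true_xor, Bool.not_not]⟩)))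

lemma inp_lit (e : E) : WLit (Wire.inp e : Wire E s t) := trivial

lemma tg_lit {b : Bool} {ρ : E' → Wire E s t} (hρ : ∀ e, WLit (ρ e)) (j : ℕ)
    {g : Gate E' s t} (hg : GLit g) : GLit (tg b ρ (fun u _ => u) (fun _ w => w) j g) := by
  cases g with
  | and a c => cases b <;> exact ⟨tw_lit hρ _ hg.1, tw_lit hρ _ hg.2⟩
  | or a c => cases b <;> exact ⟨tw_lit hρ _ hg.1, tw_lit hρ _ hg.2⟩
  | not a => exact tw_lit (a := a) hρ j hg

lemma dl_lit {C : NCirc E s t} (hC : Lit C) : Lit (dl C) := by
  refine ⟨fun g hg => ?_, tw_lit inp_lit _ hC.2⟩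
  have hg' : g ∈ C.gates.mapIdx (tg true (fun e => Wire.inp e) (fun u _ => u) (fun _ w => w)) := hg
  rw [List.mem_mapIdx] at hg'
  obtain ⟨i, hi, rfl⟩ := hg'
  exact tg_lit inp_lit i (hC.1 _ (List.getElem_mem hi))

end Pool.Agent.NLM
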