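import Pool.Agent.NLM.Trans
import Pool.Agent.NegLim.Up3

/-!
# The other side of the thresholds, for both modes
-/

set_option autoImplicit false

namespace Pool.Agent.NLM

open Pool.Agent.NegLim Pool.Agent.NNDT

/-- **With `s + r ≥ 1 + log2 (N + 1)` the few NOT gates are no restriction**, the coNP mode. -/
theorem upper_all {E : Type} [Fintype E] (s t r : ℕ) (hr : 1 ≤ r)
    (hN : Fintype.card E + 1 ≤ 2 ^ (s + r - 1)) (D : NCirc E 0 t) :
    ∃ C : NCirc E s t, C.nots = r ∧ C.NotsFree ∧
      C.gates.length ≤ 2 * D.gates.length + 12 * (Fintype.card E + r) ^ 3 ∧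
      ∀ x, All C x ↔ All D x := by
  obtain ⟨C, h1, h2, h3, h4⟩ := upper s t r hr hN (dl D)
  refine ⟨dl C, by rw [dl_nots, h1], dl_free C h2, by rw [dl_length]; rwa [dl_length] at h3,
    fun x => ?_⟩
  rw [dl_all, h4, dl_acc, not_not]
  simp only [Bool.not_not]

/-- **With `N` more witness bits the NOT gates are superfluous**, the coNP mode. -/
theorem simulate_all {E : Type} [Fintype E] {t : ℕ} (D : NCirc E 0 t) (hD : Lit D)
    (hmono : ∀ x x' : E → Bool, (∀ e, x e = true → x' e = true) → All D x → All D x') :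
    ∃ C : NCirc E 0 (t + Fintype.card E), Lit C ∧ C.nots = 0 ∧
      C.gates.length = 2 * D.gates.length + 2 * Fintype.card E ∧ ∀ x, All C x ↔ All D x := by
  obtain ⟨C, h1, h2, h3, h4⟩ := simulate (dl D) (dl_lit hD) (by
    intro x x' hx h
    rw [dl_acc] at h ⊢
    intro h5
    refine h (hmono _ _ (fun e he => ?_) h5)
    simp only [Bool.not_eq_true'] at he ⊢
    cases hxe : x e with
    | false => rfl
    | true =>
      rw [hx e hxe] at he
      exact absurd he (by decide))
  refine ⟨dl C, dl_lit h1, by rw [dl_nots, h2], by rw [dl_length, h3, dl_length], fun x => ?_⟩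
  rw [dl_all, h4, dl_acc, not_not]
  simp only [Bool.not_not]

end Pool.Agent.NLM
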